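import Mathlib
import Pool.Agent.V11216.MaxMin

/-!
# MP_6cdbe4_gt : the Kleisli extension of `SP^n` for max-min measures is not unique
-/

namespace Pool.Agent.Results.MP_6cdbe4_gt.NotUnique

open CategoryTheory Pool.Agent.V11216.MaxMin

/-- (1) On every metric space `X` the weight description `J X` of finitely supported max-min
measures is equivalent to the description by functionals on `C(X)`: `functional` is injective
with range the set of all functionals `φ ↦ max_i min(αᵢ, φ(xᵢ))`, `max αᵢ = +∞`.
(2) For every `n ≥ 1` the functor `SP^n` has two different extensions onto the Kleisli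
category; in fact every extension can be modified to a different one. -/
theorem result :
    (∀ (X : Type) [MetricSpace X], Function.Injective (functional : J X → C(X, ℝ) → ℝ) ∧
      Set.range (functional : J X → C(X, ℝ) → ℝ) = functionals X) ∧
    (∀ n : ℕ, 1 ≤ n →
      (∃ F₁ F₂ : Kl ⥤ Kl, Extends (SP n) F₁ ∧ Extends (SP n) F₂ ∧ F₁ ≠ F₂) ∧
      ∀ F : Kl ⥤ Kl, Extends (SP n) F → ∃ F' : Kl ⥤ Kl, Extends (SP n) F' ∧ F' ≠ F) := by
  refine ⟨fun X _ => ⟨functional_injective, range_functional⟩, fun n hn => ⟨?_, ?_⟩⟩
  · obtain ⟨F', hF', hne⟩ := exists_other hn (SPbar n) (extends_SPbar n)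
    exact ⟨F', SPbar n, hF', extends_SPbar n, hne⟩
  · intro F hF
    exact exists_other hn F hF

end Pool.Agent.Results.MP_6cdbe4_gt.NotUnique
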